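import Pool.Agent.H562.XL.Glob

/-!
# The zeros of `Ξ_λ`, `λ < 0`, are uniformly distributed at the scale `log T`

For every `λ < 0` the zeros of `Ξ_λ` in almost all windows `|Re z - y| ≤ c`, simultaneously for all
`c` between `log T` and `T / 2`, are uniformly distributed in the strip `|Im z| ≤ |λ| log T`, with the
density `1 / (4 π |λ|)`; in particular almost none of them is real.
-/

set_option autoImplicit false

namespace Pool.Agent.Results.MP_023270_nt.LocalUniformLaw

open Filter Topology MeasureTheory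

/-- The kernel `Φ(t) = 2 ∑_{n ≥ 1} (2π²n⁴e^{9t/2} - 3πn²e^{5t/2}) e^{-πn²e^{2t}}`. -/
noncomputable def Phi (t : ℝ) : ℝ :=
  2 * ∑' n : ℕ+, (2 * Real.pi ^ 2 * (n : ℝ) ^ 4 * Real.exp (9 * t / 2) -
    3 * Real.pi * (n : ℝ) ^ 2 * Real.exp (5 * t / 2)) *
      Real.exp (-(Real.pi * (n : ℝ) ^ 2 * Real.exp (2 * t)))

/-- The entire function `Ξ_λ(z) = ∫_{-∞}^{∞} Φ(t) e^{λt²} e^{izt} dt`. -/
noncomputable def Xi (lam : ℝ) (z : ℂ) : ℂ :=
  ∫ t : ℝ, ((Phi t : ℝ) : ℂ) * Complex.exp ((lam : ℂ) * (t : ℂ) ^ 2) *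
    Complex.exp (Complex.I * z * (t : ℂ))

/-- The number of zeros of `f` in `S`, counted with multiplicity (an element of `[0, ∞]`):
the sum over the points of `S` of the order of vanishing of `f`. -/
noncomputable def zeroCount (f : ℂ → ℂ) (S : Set ℂ) : ENNReal :=
  ∑' z : S, ((analyticOrderAt f (z : ℂ) : ℕ∞) : ENNReal)

/-- The rectangle `y + a ≤ Re z ≤ y + b`, `v₁ |λ| log T ≤ Im z ≤ v₂ |λ| log T`. -/
def Rect (lam T y a b v₁ v₂ : ℝ) : Set ℂ :=
  {z | y + a ≤ z.re ∧ z.re ≤ y + b ∧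
    v₁ * |lam| * Real.log T ≤ z.im ∧ z.im ≤ v₂ * |lam| * Real.log T}

/-- `N` is within `e` of `m` (for a number `N` in `[0, ∞]` and real numbers `m`, `e`). -/
def Within (N : ENNReal) (m e : ℝ) : Prop := ENNReal.ofReal (m - e) ≤ N ∧ N ≤ ENNReal.ofReal (m + e)

/-- The local law at the point `y`: for all `c` between `log T` and `T / 2`, the number of zeros of
`Ξ_λ` in every rectangle `Rect lam T y a b v₁ v₂` with `[a, b] ⊆ [-c, c]`, `[v₁, v₂] ⊆ [-1, 1]` is
`(b - a) (v₂ - v₁) (log T) / (4 π)` up to `ε c log T`, and at most `ε c log T` zeros with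
`|Re z - y| ≤ c` have `|Im z| > |λ| log T`. -/
def LocalLaw (lam ε T y : ℝ) : Prop :=
  ∀ c : ℝ, Real.log T ≤ c → c ≤ T / 2 →
    (∀ a b v₁ v₂ : ℝ, -c ≤ a → a ≤ b → b ≤ c → -1 ≤ v₁ → v₁ ≤ v₂ → v₂ ≤ 1 →
      Within (zeroCount (Xi lam) (Rect lam T y a b v₁ v₂))
        ((b - a) * (v₂ - v₁) * Real.log T / (4 * Real.pi)) (ε * c * Real.log T)) ∧
    zeroCount (Xi lam) {z | |z.re - y| ≤ c ∧ |lam| * Real.log T < |z.im|} ≤
      ENNReal.ofReal (ε * c * Real.log T)

lemma Phi_eq (t : ℝ) : Phi t = Pool.Agent.Helper242.KK.Ph t := by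
  unfold Phi Pool.Agent.Helper242.KK.Ph Pool.Agent.Helper242.RK.Phi
  congr 1
  rw [tsum_pnat_eq_tsum_succ (f := fun n : ℕ => (2 * Real.pi ^ 2 * (n : ℝ) ^ 4 *
    Real.exp (9 * t / 2) - 3 * Real.pi * (n : ℝ) ^ 2 * Real.exp (5 * t / 2)) *
      Real.exp (-(Real.pi * (n : ℝ) ^ 2 * Real.exp (2 * t))))]
  refine tsum_congr fun n => ?_
  push_cast
  rw [show 9 * (t / 2) = 9 * t / 2 by ring, show 5 * (t / 2) = 5 * t / 2 by ring,
    show 4 * (t / 2) = 2 * t by ring]
  ring_nf

lemma Xi_eq (lam : ℝ) : Xi lam = Pool.Agent.Helper242.KK.XiM (-lam) := by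
  funext z
  unfold Xi Pool.Agent.Helper242.KK.XiM Pool.Agent.Helper242.KK.FT Pool.Agent.Helper242.KK.wk
  refine integral_congr_ae (Eventually.of_forall fun t => ?_)
  simp only [Phi_eq]
  push_cast
  rw [neg_neg]

lemma zeroCount_eq (f : ℂ → ℂ) (S : Set ℂ) :
    zeroCount f S = Pool.Agent.Helper242.KK.zc f S := rfl

/-- **Main theorem.** Let `λ < 0` and `ε > 0`.

* For all large `T` the local law holds at all `y ∈ [T, 2 T]` outside a set of measure at most
  `ε T`: simultaneously for all `c ∈ [log T, T / 2]` and all rectangles `R` in the window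
  `|Re z - y| ≤ c`, `|Im z| ≤ |λ| log T` the number of zeros of `Ξ_λ` in `R` is
  `area (R) / (4 π |λ|)` up to `ε c log T`, and all but `ε c log T` zeros with `|Re z - y| ≤ c` are
  in this window.
* Consequently, for these `y` and `c`, at least `(1 / π - ε) c log T` zeros have `|Re z - y| ≤ c`, at
  most `(1 / π + 2 ε) c log T`, and at most `ε c log T` of them are real.
* The proportion of the real zeros of the problem tends to `0`: the answer to the question is
  negative for every `λ < 0`. -/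
theorem result (lam : ℝ) (hlam : lam < 0) :
    (∀ ε : ℝ, 0 < ε → ∀ᶠ T : ℝ in atTop,
      volume {y : ℝ | T ≤ y ∧ y ≤ 2 * T ∧ ¬ LocalLaw lam ε T y} ≤ ENNReal.ofReal (ε * T)) ∧
    (∀ ε T y c : ℝ, 0 < ε → 1 < T → LocalLaw lam ε T y → Real.log T ≤ c → c ≤ T / 2 →
      ENNReal.ofReal ((1 / Real.pi - ε) * c * Real.log T) ≤
        zeroCount (Xi lam) {z | |z.re - y| ≤ c} ∧
      zeroCount (Xi lam) {z | |z.re - y| ≤ c} ≤
        ENNReal.ofReal ((1 / Real.pi + 2 * ε) * c * Real.log T) ∧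
      zeroCount (Xi lam) {z | |z.re - y| ≤ c ∧ z.im = 0} ≤ ENNReal.ofReal (ε * c * Real.log T)) ∧
    Tendsto (fun T : ℝ => zeroCount (Xi lam) {z | z.im = 0 ∧ ‖z‖ ≤ T} /
      zeroCount (Xi lam) {z | |z.re| ≤ T}) atTop (𝓝 0) := by
  have hμ : 0 < -lam := by linarith
  have habs : |lam| = -lam := abs_of_neg hlam
  have hpi0 := Real.pi_pos
  refine ⟨fun ε hε => ?_, fun ε T y c hε hT hL hc1 hc2 => ?_, ?_⟩
  · filter_upwards [Pool.Agent.H562.XL.local_law hμ hε] with T hT
    obtain ⟨E, hE, h⟩ := hT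
    refine le_trans (measure_mono ?_) hE
    rintro y ⟨h1, h2, h3⟩
    by_contra hyE
    apply h3
    intro c hc1 hc2
    obtain ⟨h4, h5⟩ := h y h1 h2 hyE c hc1 hc2
    rw [Xi_eq]
    refine ⟨fun a b v₁ v₂ ha hab hb hv₁ hv hv₂ => ?_, ?_⟩
    · have h6 := h4 a b v₁ v₂ ha hab hb hv₁ hv hv₂
      unfold Within Rect
      rw [habs]
      exact h6
    · rw [habs]
      exact h5
  · obtain ⟨h1, h2⟩ := hL c hc1 hc2
    have hl0 : 0 < Real.log T := Real.log_pos hT
    have hc0 : 0 < c := hl0.trans_le hc1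
    have hl : 0 < |lam| * Real.log T := by
      rw [habs]
      positivity
    obtain ⟨h3, h4⟩ := h1 (-c) c (-1) 1 le_rfl (by linarith) le_rfl le_rfl (by norm_num) le_rfl
    obtain ⟨-, h5⟩ := h1 (-c) c 0 0 le_rfl (by linarith) le_rfl (by norm_num) le_rfl (by norm_num)
    have e1 : (c - -c) * (1 - -1) * Real.log T / (4 * Real.pi) = 1 / Real.pi * c * Real.log T := by
      field_simp
      ring
    rw [e1] at h3 h4
    refine ⟨?_, ?_, ?_⟩
    · rw [show (1 / Real.pi - ε) * c * Real.log T =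
        1 / Real.pi * c * Real.log T - ε * c * Real.log T by ring]
      refine h3.trans (Pool.Agent.Helper242.KK.zc_mono _ ?_)
      rintro z ⟨a1, a2, -, -⟩
      show |z.re - y| ≤ c
      rw [abs_le]
      constructor <;> linarith
    · have hcov : {z : ℂ | |z.re - y| ≤ c} ⊆ Rect lam T y (-c) c (-1) 1 ∪
          {z | |z.re - y| ≤ c ∧ |lam| * Real.log T < |z.im|} := by
        intro z hz
        have hz' : |z.re - y| ≤ c := hz
        rcases le_or_gt |z.im| (|lam| * Real.log T) with h6 | h6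
        · left
          rw [abs_le] at hz' h6
          exact ⟨by linarith, by linarith, by linarith, by linarith⟩
        · exact Or.inr ⟨hz', h6⟩
      refine (Pool.Agent.Helper242.KK.zc_mono _ hcov).trans
        ((Pool.Agent.Helper242.KK.zc_union_le _ _ _).trans ?_)
      refine (add_le_add h4 h2).trans (le_of_eq ?_)
      rw [← ENNReal.ofReal_add (by positivity) (by positivity)]
      congr 1
      ring
    · refine (Pool.Agent.Helper242.KK.zc_mono _ ?_).trans (h5.trans (le_of_eq ?_))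
      · rintro z ⟨a1, a2⟩
        rw [abs_le] at a1
        exact ⟨by linarith, by linarith, by rw [a2]; simp, by rw [a2]; simp⟩
      · congr 1
        ring
  · have h := Pool.Agent.T6.H61.KK.law_disc_ratio (α := 1) (κ := 0) hμ le_rfl one_pos le_rfl
    rw [Xi_eq]
    simp only [one_mul, zero_mul] at h
    have h0 : (min (0:ℝ) 1) = 0 := by norm_num
    rw [h0, ENNReal.ofReal_zero] at h
    refine h.congr fun T => ?_
    congr 1
    show Pool.Agent.Helper242.KK.zc _ _ = Pool.Agent.Helper242.KK.zc _ _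
    congr 1
    ext z
    simp only [Set.mem_ofPred_eq, abs_nonpos_iff]
    tauto

end Pool.Agent.Results.MP_023270_nt.LocalUniformLaw
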