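import Pool.Agent.H466.HG.BK
import Pool.Agent.H466.HD.F1

/-!
# The zeros of `Ξ_λ` for small negative `λ` are uniformly distributed in the strip

`Ξ_λ` is the deformed Riemann xi function of the problem. For fixed `λ < 0` the zeros at the height
`T` are uniformly distributed in the strip `|Im z| ≤ |λ| log T` (library). Here `λ` may depend on `T`:
the same holds uniformly for `A / log² T ≤ |λ| ≤ δ / log T`, that is down to the microscopic times,
at which the width of the strip is comparable with the mean distance `2π / log T` of the zeros of `Ξ`;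
also locally, in almost all windows of a length comparable with the width of the strip.

Authors of the parts: plan, statements, assembly: helper466; the other parts (see the headers of the
imported files `HP`, `HN`, `HD`, `HE`): the seats named in
`Results/MP_164d34_nt/HeatFlowTransition.lean`. The lemma `Phi_eq` is by helper562.
-/

open Complex MeasureTheory Set

set_option autoImplicit false

namespace Pool.Agent.Results.MP_023270_nt.MicroscopicUniformLaw

/-- The kernel `Φ(t) = 2 ∑_{n ≥ 1} (2π²n⁴e^{9t/2} - 3πn²e^{5t/2}) e^{-πn²e^{2t}}`. -/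
noncomputable def Phi (t : ℝ) : ℝ :=
  2 * ∑' n : ℕ+, (2 * Real.pi ^ 2 * (n : ℝ) ^ 4 * Real.exp (9 * t / 2) -
    3 * Real.pi * (n : ℝ) ^ 2 * Real.exp (5 * t / 2)) *
      Real.exp (-(Real.pi * (n : ℝ) ^ 2 * Real.exp (2 * t)))

/-- The entire function `Ξ_λ(z) = ∫_{-∞}^{∞} Φ(t) e^{λt²} e^{izt} dt`. -/
noncomputable def Xi (lam : ℝ) (z : ℂ) : ℂ :=
  ∫ t : ℝ, ((Phi t : ℝ) : ℂ) * Complex.exp ((lam : ℂ) * (t : ℂ) ^ 2) *
    Complex.exp (Complex.I * z * (t : ℂ))

/-- The number of the zeros of `Ξ_λ` in the set `E`, counted with multiplicity, is between `a` and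
`b`. -/
def Zeros (lam : ℝ) (E : Set ℂ) (a b : ℝ) : Prop :=
  (∀ S : Finset ℂ, (∀ z ∈ S, Xi lam z = 0 ∧ z ∈ E) →
    ∑ z ∈ S, (analyticOrderNatAt (Xi lam) z : ℝ) ≤ b) ∧
  ∃ S : Finset ℂ, (∀ z ∈ S, Xi lam z = 0 ∧ z ∈ E) ∧
    a ≤ ∑ z ∈ S, (analyticOrderNatAt (Xi lam) z : ℝ)

/-! ### Translation -/

lemma Phi_eq (t : ℝ) : Phi t = Pool.Agent.Helper242.KK.Ph t := by
  unfold Phi Pool.Agent.Helper242.KK.Ph Pool.Agent.Helper242.RK.Phi
  congr 1
  rw [tsum_pnat_eq_tsum_succ (f := fun n : ℕ => (2 * Real.pi ^ 2 * (n : ℝ) ^ 4 *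
    Real.exp (9 * t / 2) - 3 * Real.pi * (n : ℝ) ^ 2 * Real.exp (5 * t / 2)) *
      Real.exp (-(Real.pi * (n : ℝ) ^ 2 * Real.exp (2 * t))))]
  refine tsum_congr fun n => ?_
  push_cast
  rw [show 9 * (t / 2) = 9 * t / 2 by ring, show 5 * (t / 2) = 5 * t / 2 by ring,
    show 4 * (t / 2) = 2 * t by ring]
  ring_nf

lemma Xi_eq (lam : ℝ) : Xi lam = fun z => Pool.Agent.H466.HN.flow lam (1 / 2 + I * z) := by
  funext z
  rw [Pool.Agent.H466.HN.flow_eq, add_sub_cancel_left]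
  unfold Xi Pool.Agent.H466.HF.LL Pool.Agent.H466.LD.gk
  refine integral_congr_ae (Filter.Eventually.of_forall fun t => ?_)
  simp only [Phi_eq]
  rw [mul_assoc, ← Complex.exp_add]

lemma ord_eq (lam : ℝ) (z : ℂ) : analyticOrderNatAt (Xi lam) z =
    analyticOrderNatAt (Pool.Agent.H466.HN.flow lam) (1 / 2 + I * z) := by
  have hg : AnalyticAt ℂ (fun z : ℂ => 1 / 2 + I * z) z := by fun_prop
  have hd : HasDerivAt (fun z : ℂ => 1 / 2 + I * z) I z := by
    have h := ((hasDerivAt_id z).const_mul I).const_add (1 / 2 : ℂ)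
    simpa using h
  have h := analyticOrderAt_comp_of_deriv_ne_zero (f := Pool.Agent.H466.HN.flow lam) hg
    (by rw [hd.deriv]; exact I_ne_zero)
  unfold analyticOrderNatAt
  rw [Xi_eq]
  exact congrArg ENat.toNat h

lemma inj1 : Function.Injective fun z : ℂ => 1 / 2 + I * z := by
  intro z w h
  have h1 : I * z = I * w := add_left_cancel h
  exact mul_left_cancel₀ I_ne_zero h1

lemma back (s : ℂ) : 1 / 2 + I * (-I * (s - 1 / 2)) = s := by
  have h : I * (-I * (s - 1 / 2)) = -(I * I) * (s - 1 / 2) := by ring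
  rw [h, I_mul_I]
  ring

lemma zeros_tr {lam a b : ℝ} {E E' : Set ℂ} (h : Pool.Agent.H466.HG.BK.ZF lam E a b)
    (hE : ∀ z, z ∈ E' ↔ 1 / 2 + I * z ∈ E) : Zeros lam E' a b := by
  constructor
  · intro S hS
    have h1 := h.1 (S.image fun z : ℂ => 1 / 2 + I * z) (by
      intro s hs
      obtain ⟨z, hz, rfl⟩ := Finset.mem_image.mp hs
      obtain ⟨c1, c2⟩ := hS z hz
      rw [Xi_eq] at c1
      exact ⟨c1, (hE z).1 c2⟩)
    rw [Finset.sum_image fun x _ y _ hxy => inj1 hxy] at h1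
    refine le_trans (le_of_eq ?_) h1
    exact Finset.sum_congr rfl fun z _ => by rw [ord_eq]
  · obtain ⟨S, hS, hS2⟩ := h.2
    refine ⟨S.image fun s : ℂ => -I * (s - 1 / 2), ?_, ?_⟩
    · intro z hz
      obtain ⟨s, hs, rfl⟩ := Finset.mem_image.mp hz
      obtain ⟨c1, c2⟩ := hS s hs
      refine ⟨?_, ?_⟩
      · rw [Xi_eq]
        simp only [back]
        exact c1
      · rw [hE, back]
        exact c2
    · refine hS2.trans (le_of_eq ?_)
      rw [Finset.sum_image]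
      · exact Finset.sum_congr rfl fun s _ => by rw [ord_eq, back]
      · intro x _ y _ hxy
        have h1 := congrArg (fun w : ℂ => 1 / 2 + I * w) hxy
        simp only [back] at h1
        exact h1

/-- **Uniform distribution of the zeros of `Ξ_λ` down to the microscopic times.** For all `ε, W > 0`
there are `A`, `δ > 0` and `T₀` such that for `T ≥ T₀` and `-δ / log T ≤ λ ≤ -A / log² T`, `λ < 0`,

* `Ξ_λ` has `(1 ± ε) (T / 2π) log T` zeros with `T ≤ Re z ≤ 2T`, and for every `v ∈ [0, 1]`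
  `(v ± ε) (T / 2π) log T` of them are in the strip `|Im z| ≤ v |λ| log T` (`v = 0`: the real zeros);
* for all `t ∈ [T, 2T]` outside a set of measure at most `ε T`, all zeros with
  `|Re z - t| ≤ W |λ| log T` satisfy `|Im z| ≤ (1 + ε) |λ| log T`, and for every `v ∈ [0, 1]` the number
  of those with `|Im z| ≤ v |λ| log T` is `(v ± ε) (W / π) |λ| log² T`. -/
theorem result : ∀ ε W : ℝ, 0 < ε → 0 < W → ∃ A δ T₀ : ℝ, 0 < δ ∧
    ∀ T lam : ℝ, T₀ ≤ T → lam < 0 → A ≤ |lam| * Real.log T ^ 2 → |lam| * Real.log T ≤ δ →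
    Zeros lam {z | T ≤ z.re ∧ z.re ≤ 2 * T} ((1 - ε) * (T * Real.log T / (2 * Real.pi)))
      ((1 + ε) * (T * Real.log T / (2 * Real.pi))) ∧
    (∀ v ∈ Icc (0 : ℝ) 1,
      Zeros lam {z | T ≤ z.re ∧ z.re ≤ 2 * T ∧ |z.im| ≤ v * (|lam| * Real.log T)}
        ((v - ε) * (T * Real.log T / (2 * Real.pi)))
        ((v + ε) * (T * Real.log T / (2 * Real.pi)))) ∧
    ∃ B : Set ℝ, volume B ≤ ENNReal.ofReal (ε * T) ∧ ∀ t ∈ Icc T (2 * T), t ∉ B →
      (∀ z : ℂ, Xi lam z = 0 → |z.re - t| ≤ W * (|lam| * Real.log T) →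
        |z.im| ≤ (1 + ε) * (|lam| * Real.log T)) ∧
      ∀ v ∈ Icc (0 : ℝ) 1, Zeros lam
        {z | |z.re - t| ≤ W * (|lam| * Real.log T) ∧ |z.im| ≤ v * (|lam| * Real.log T)}
        ((v - ε) * (W * (|lam| * Real.log T ^ 2) / Real.pi))
        ((v + ε) * (W * (|lam| * Real.log T ^ 2) / Real.pi)) := by
  intro ε W hε hW
  obtain ⟨A0, δ, T0, hδ, h⟩ := Pool.Agent.H466.HG.BK.backward Pool.Agent.H466.HE.uni
    Pool.Agent.H466.HE.tubb Pool.Agent.H466.HE.llw ε W hε hW
  refine ⟨A0, δ, T0, hδ, fun T lam hT hlam hA hl => ?_⟩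
  have e : -|lam| = lam := by rw [abs_of_neg hlam, neg_neg]
  have him : ∀ z : ℂ, (1 / 2 + I * z).im = z.re := by intro z; simp
  have hre : ∀ z : ℂ, (1 / 2 + I * z).re - 1 / 2 = -z.im := by intro z; simp
  obtain ⟨h1, h2, B, hB, h3⟩ := h T |lam| hT hA hl
  rw [e] at h1 h2 h3
  refine ⟨zeros_tr h1 fun z => ?_, fun v hv => zeros_tr (h2 v hv) fun z => ?_, B, hB,
    fun t ht htB => ⟨fun z hz hz2 => ?_, fun v hv => zeros_tr ((h3 t ht htB).2 v hv) fun z => ?_⟩⟩
  · simp only [Pool.Agent.H466.HG.BK.BF, mem_setOf_eq, him]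
  · simp only [Pool.Agent.H466.HG.BK.BF, mem_setOf_eq, him, hre, abs_neg, and_assoc]
  · have h4 := (h3 t ht htB).1 (1 / 2 + I * z) (by rw [Xi_eq] at hz; exact hz)
      (by rw [him]; exact hz2)
    rw [hre, abs_neg] at h4
    exact h4
  · simp only [mem_setOf_eq, him, hre, abs_neg]

end Pool.Agent.Results.MP_023270_nt.MicroscopicUniformLaw
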