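import Pool.Agent.H474.RZ.Asm3
import Pool.Agent.H289.RZ.SUM
import Pool.Agent.H571.RZ.MV
import Pool.Agent.H51.RZ474.WIN
import Pool.Agent.H215.RZ.REP
import Pool.Agent.H800.RZ.PL
import Pool.Agent.H161.RZ.GAM
import Pool.Agent.H549.RZ.M4
import Pool.Agent.H415.RZ.BLK
import Pool.Agent.H878.RZ.HREP
import Pool.Agent.H878.RZ.FOUR
import Pool.Agent.H100.RZ.ODD
import Pool.Agent.H236.RZ.KW
import Pool.Agent.H396.RZ.FIN
import Pool.Agent.H591.RZ.NZ

/-!
# Real zeros of `Ξ_λ`, `λ < 0`: at least `c T / (log T)²` of them up to height `T`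

For every `λ < 0` the function `Ξ_λ` has at least `κ T / (log T)²` real zeros of odd order in `(0, T]`,
`T` large.  The same holds for every nontrivial finite real linear combination of real translates of such functions.
-/

set_option autoImplicit false

namespace Pool.Agent.Results.MP_023270_nt.RealZeros

open Filter Topology MeasureTheory

/-- The kernel `Φ(t) = 2 ∑_{n ≥ 1} (2π²n⁴e^{9t/2} - 3πn²e^{5t/2}) e^{-πn²e^{2t}}`. -/
noncomputable def Phi (t : ℝ) : ℝ :=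
  2 * ∑' n : ℕ+, (2 * Real.pi ^ 2 * (n : ℝ) ^ 4 * Real.exp (9 * t / 2) -
    3 * Real.pi * (n : ℝ) ^ 2 * Real.exp (5 * t / 2)) *
      Real.exp (-(Real.pi * (n : ℝ) ^ 2 * Real.exp (2 * t)))

/-- The entire function `Ξ_λ(z) = ∫_{-∞}^{∞} Φ(t) e^{λt²} e^{izt} dt`. -/
noncomputable def Xi (lam : ℝ) (z : ℂ) : ℂ :=
  ∫ t : ℝ, ((Phi t : ℝ) : ℂ) * Complex.exp ((lam : ℂ) * (t : ℂ) ^ 2) *
    Complex.exp (Complex.I * z * (t : ℂ))

/-- `F` has at least `m` different real zeros of odd order in `(0, T]`. -/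
def OddZeros (F : ℂ → ℂ) (T m : ℝ) : Prop :=
  ∃ S : Finset ℝ, (∀ x ∈ S, 0 < x ∧ x ≤ T ∧ F (x : ℂ) = 0 ∧ Odd (analyticOrderNatAt F (x : ℂ))) ∧
    m ≤ (S.card : ℝ)

lemma Phi_eq (t : ℝ) : Phi t = Pool.Agent.Helper242.KK.Ph t := by
  unfold Phi Pool.Agent.Helper242.KK.Ph Pool.Agent.Helper242.RK.Phi
  congr 1
  rw [tsum_pnat_eq_tsum_succ (f := fun n : ℕ => (2 * Real.pi ^ 2 * (n : ℝ) ^ 4 *
    Real.exp (9 * t / 2) - 3 * Real.pi * (n : ℝ) ^ 2 * Real.exp (5 * t / 2)) *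
      Real.exp (-(Real.pi * (n : ℝ) ^ 2 * Real.exp (2 * t))))]
  refine tsum_congr fun n => ?_
  push_cast
  rw [show 9 * (t / 2) = 9 * t / 2 by ring, show 5 * (t / 2) = 5 * t / 2 by ring,
    show 4 * (t / 2) = 2 * t by ring]
  ring_nf

lemma Xi_eq (lam : ℝ) : Xi lam = Pool.Agent.Helper242.KK.XiM (-lam) := by
  funext z
  unfold Xi Pool.Agent.Helper242.KK.XiM Pool.Agent.Helper242.KK.FT Pool.Agent.Helper242.KK.wk
  refine integral_congr_ae (Eventually.of_forall fun t => ?_)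
  simp only [Phi_eq]
  push_cast
  rw [neg_neg]

/-- **Main theorem.**

* For every `λ < 0` there is `κ > 0` such that for all large `T` the function `Ξ_λ` has at least `κ T / (log T)²`
  real zeros of odd order in `(0, T]`.
* The same holds for every function `F(z) = ∑_j c_j Ξ_{λ_j}(z - y_j)` (a finite sum) with all `λ_j < 0`, `c_j`, `y_j` real, the pairs
  `(λ_j, y_j)` pairwise different and not all `c_j = 0`. -/
theorem result :
    (∀ lam : ℝ, lam < 0 → ∃ κ : ℝ, 0 < κ ∧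
      ∀ᶠ T : ℝ in atTop, OddZeros (Xi lam) T (κ * T / Real.log T ^ 2)) ∧
    (∀ (J : ℕ) (c lam y : Fin J → ℝ), (∀ j, lam j < 0) →
      Function.Injective (fun j => (lam j, y j)) → (∃ j, c j ≠ 0) →
      ∃ κ : ℝ, 0 < κ ∧ ∀ᶠ T : ℝ in atTop,
        OddZeros (fun z => ∑ j, (c j : ℂ) * Xi (lam j) (z - (y j : ℂ))) T
          (κ * T / Real.log T ^ 2)) := by
  have key : ∀ (J : ℕ) (c lam y : Fin J → ℝ), (∀ j, lam j < 0) →
      Function.Injective (fun j => (lam j, y j)) → (∃ j, c j ≠ 0) →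
      ∃ κ : ℝ, 0 < κ ∧ ∀ᶠ T : ℝ in atTop,
        OddZeros (fun z => ∑ j, (c j : ℂ) * Xi (lam j) (z - (y j : ℂ))) T
          (κ * T / Real.log T ^ 2) := by
    intro J c lam y hl hinj hc
    have hW := Pool.Agent.H51.RZ474.WIN.t_WIN Pool.Agent.H289.RZ.SUM.t_SUM
      Pool.Agent.H571.RZ.MV.t_MV
    have hR := Pool.Agent.H215.RZ.REP.t_REP
    have hF4 := Pool.Agent.H878.RZ.FOUR.t_FOUR
      (Pool.Agent.H415.RZ.BLK.t_BLK Pool.Agent.H161.RZ.GAM.t_GAM Pool.Agent.H549.RZ.M4.t_M4)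
      Pool.Agent.H878.RZ.HREP.t_HREP
    have hKW := Pool.Agent.H236.RZ.KW.t_KW hW.1 hR
    let K : Pool.Agent.H474.RZ.Cmb :=
      ⟨J, c, fun j => -lam j, y, fun j => by simpa using hl j⟩
    have hF : (fun z => ∑ j, (c j : ℂ) * Xi (lam j) (z - (y j : ℂ))) = K.F := by
      funext z
      simp only [Xi_eq]
      rfl
    have hinj' : Function.Injective (fun j => (-lam j, y j)) := by
      intro i j hij
      apply hinj
      simpa using hij
    have hne := Pool.Agent.H591.RZ.NZ.t_NZ J c (fun j => -lam j) y K.hmu hinj' hc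
    rw [hF]
    exact K.zeros hR hW.2 hKW Pool.Agent.H800.RZ.PL.t_PL hF4 Pool.Agent.H396.RZ.FIN.t_FIN
      Pool.Agent.H100.RZ.ODD.t_ODD hne
  refine ⟨fun lam hlam => ?_, key⟩
  obtain ⟨κ, hκ, h⟩ := key 1 (fun _ => 1) (fun _ => lam) (fun _ => 0) (fun _ => hlam)
    (fun i j _ => Subsingleton.elim i j) ⟨0, one_ne_zero⟩
  refine ⟨κ, hκ, h.mono fun T hT => ?_⟩
  simpa using hT

end Pool.Agent.Results.MP_023270_nt.RealZeros
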